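import Mathlib

/-!
# Finitely generated fiber products of free semigroups are finitely presented

Let `f : A⁺ → Q` and `g : B⁺ → Q` be surjective. If the fiber product
`S = {(u, v) : f u = g v}` is finitely generated then it is finitely presented.

The key points are: `q ≠ q t` for all `q`, `t` in `Q`, and equations `q z = q z'` in `Q` can be
cancelled down to a factor `q'` of `q` of bounded length (local cancellation).
-/

set_option autoImplicit false

namespace Pool.Agent.Results.MP_c47b4a_al.FinitelyPresented

/-! ### The combinatorial core, for lists -/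

section Core

variable {A B Y W : Type} [Monoid W]

/-- The value of a word. -/
def ev {A W : Type} [Monoid W] (f : A → W) (u : List A) : W := (u.map f).prod

theorem ev_nil {A W : Type} [Monoid W] (f : A → W) : ev f [] = 1 := by simp [ev]

theorem ev_append {A W : Type} [Monoid W] (f : A → W) (u v : List A) :
    ev f (u ++ v) = ev f u * ev f v := by simp [ev]

/-- The data: letters `A`, `B` evaluated in `W` and finitely long generators `Y`. -/
structure Data (f : A → W) (g : B → W) (a : Y → List A) (b : Y → List B) (M : ℕ) : Prop where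
  a_ne : ∀ y, a y ≠ []
  b_ne : ∀ y, b y ≠ []
  b_le : ∀ y, (b y).length ≤ M
  ab : ∀ y, ev f (a y) = ev g (b y)
  full : ∀ u v, ev f u = ev g v → ∃ p : List Y, p.flatMap a = u ∧ p.flatMap b = v
  phi : ∀ β, ∃ u : List A, u ≠ [] ∧ ev f u = g β
  psi : ∀ α, ∃ v : List B, v ≠ [] ∧ ev g v = f α

variable {f : A → W} {g : B → W} {a : Y → List A} {b : Y → List B} {M : ℕ}

theorem ev_flatMap (D : Data f g a b M) (p : List Y) : ev f (p.flatMap a) = ev g (p.flatMap b) := by
  induction p with
  | nil => simp [ev]
  | cons y p ih => rw [List.flatMap_cons, List.flatMap_cons, ev_append, ev_append, ih, D.ab]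

theorem length_le_flatMap {A Y : Type} {a : Y → List A} (h : ∀ y, a y ≠ []) (p : List Y) :
    p.length ≤ (p.flatMap a).length := by
  induction p with
  | nil => simp
  | cons y p ih =>
    rw [List.flatMap_cons, List.length_append, List.length_cons]
    have := List.length_pos_of_ne_nil (h y)
    omega

theorem flatMap_length_le {A Y : Type} {a : Y → List A} {M : ℕ} (h : ∀ y, (a y).length ≤ M)
    (p : List Y) : (p.flatMap a).length ≤ M * p.length := by
  induction p with
  | nil => simp
  | cons y p ih =>
    rw [List.flatMap_cons, List.length_append, List.length_cons, Nat.mul_succ]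
    have := h y
    omega

/-- Every word in `A` has the value of a word in `B`. -/
theorem exists_psi (D : Data f g a b M) (u : List A) :
    ∃ v : List B, (u ≠ [] → v ≠ []) ∧ ev g v = ev f u := by
  induction u with
  | nil => exact ⟨[], fun h => absurd rfl h, by simp [ev]⟩
  | cons α u ih =>
    obtain ⟨v, -, hv⟩ := ih
    obtain ⟨w, hw, hw'⟩ := D.psi α
    refine ⟨w ++ v, fun _ => by simp [hw], ?_⟩
    rw [ev_append, hv, hw']
    simp [ev]

/-- `q ≠ q t`. -/
theorem no_fix (D : Data f g a b M) (x : List A) (w : List B) (hw : w ≠ []) :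
    ev f x ≠ ev f x * ev g w := by
  intro h
  obtain ⟨y, -, hy⟩ := exists_psi D x
  have hn : ∀ n, ev g (y ++ (List.replicate n w).flatten) = ev f x := by
    intro n
    induction n with
    | zero => simp [hy]
    | succ n ih =>
      rw [List.replicate_succ', List.flatten_append, ← List.append_assoc, ev_append, ih,
        List.flatten_singleton, ← h]
  obtain ⟨p, hp1, hp2⟩ := D.full x _ (hn (M * x.length + 1)).symm
  have h1 := length_le_flatMap D.a_ne p
  have h2 := flatMap_length_le D.b_le p
  rw [hp1] at h1
  rw [hp2, List.length_append, List.length_flatten] at h2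
  simp only [List.map_replicate, List.sum_replicate, smul_eq_mul] at h2
  have h3 := List.length_pos_of_ne_nil hw
  have h4 : M * p.length ≤ M * x.length := Nat.mul_le_mul_left _ h1
  have h5 : (M * x.length + 1) * 1 ≤ (M * x.length + 1) * w.length := Nat.mul_le_mul_left _ h3
  omega

/-- `q ≠ q (r z)` with `r` a nonempty word in `A`. -/
theorem no_fix' (D : Data f g a b M) (x r : List A) (z : List B) (hr : r ≠ []) :
    ev f x ≠ ev f x * (ev f r * ev g z) := by
  obtain ⟨w, hw, hw'⟩ := exists_psi D r
  rw [← hw', ← ev_append]
  exact no_fix D x _ (by simp [hw hr])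

/-- Two prefixes of a word of `A` with the same value are equal. -/
theorem prefix_unique (D : Data f g a b M) {x x' r r' : List A} (h : x ++ r = x' ++ r')
    (he : ev f x = ev f x') : x = x' := by
  rcases List.append_eq_append_iff.1 h with ⟨c, hc, -⟩ | ⟨c, hc, -⟩
  · by_cases hc0 : c = []
    · rw [hc, hc0, List.append_nil]
    · exfalso
      rw [hc, ev_append] at he
      have := no_fix' D x c [] hc0
      rw [ev_nil, mul_one] at this
      exact this he
  · by_cases hc0 : c = []
    · rw [hc, hc0, List.append_nil]
    · exfalso
      rw [hc, ev_append] at he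
      have := no_fix' D x' c [] hc0
      rw [ev_nil, mul_one] at this
      exact this he.symm

/-- Splitting a list of generators at a given length. -/
theorem exists_split {B Y : Type} (b : Y → List B) (p : List Y) (k : ℕ) :
    ∃ p₁ p₂, p = p₁ ++ p₂ ∧ (p₁.flatMap b).length ≤ k ∧
      (p₂ = [] ∨ ∃ h t, p₂ = h :: t ∧ k < (p₁.flatMap b).length + (b h).length) := by
  induction p generalizing k with
  | nil => exact ⟨[], [], rfl, by simp, Or.inl rfl⟩
  | cons y p ih =>
    rcases Nat.lt_or_ge k (b y).length with h | h
    · exact ⟨[], y :: p, rfl, by simp, Or.inr ⟨y, p, rfl, by simpa using h⟩⟩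
    · obtain ⟨p₁, p₂, h1, h2, h3⟩ := ih (k - (b y).length)
      refine ⟨y :: p₁, p₂, by rw [h1]; rfl, ?_, ?_⟩
      · rw [List.flatMap_cons, List.length_append]
        omega
      · rcases h3 with h3 | ⟨h', t, h3, h4⟩
        · exact Or.inl h3
        · refine Or.inr ⟨h', t, h3, ?_⟩
          rw [List.flatMap_cons, List.length_append]
          omega

/-- Every word in `B` has the value of a word in `A`, letter by letter. -/
theorem exists_phi (D : Data f g a b M) :
    ∃ φ : B → List A, ∀ t : List B, ev f (t.flatMap φ) = ev g t := by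
  choose φ h1 h2 using D.phi
  refine ⟨φ, fun t => ?_⟩
  induction t with
  | nil => simp [ev]
  | cons β t ih =>
    rw [List.flatMap_cons, ev_append, h2, ih]
    simp [ev]

/-- Local cancellation. -/
theorem local_cancel (D : Data f g a b M) (t : List B) (z : List A) (z' : List B)
    (h : ev g t * ev f z = ev g t * ev g z') :
    ∃ t₁ t₂, t = t₁ ++ t₂ ∧ t₂.length ≤ M ∧ ev g t₂ * ev f z = ev g t₂ * ev g z' := by
  obtain ⟨φ, hφ⟩ := exists_phi D
  obtain ⟨r, hr1, hr2⟩ := D.full (t.flatMap φ ++ z) (t ++ z') (by
    rw [ev_append, ev_append, hφ, h])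
  obtain ⟨r₁, r₂, rfl, h1, h2⟩ := exists_split b r t.length
  rw [List.flatMap_append] at hr1 hr2
  -- the prefix of `t`
  have hpre : ∃ t₂, t = r₁.flatMap b ++ t₂ ∧ r₂.flatMap b = t₂ ++ z' := by
    rcases List.append_eq_append_iff.1 hr2 with ⟨c, hc, hc'⟩ | ⟨c, hc, hc'⟩
    · exact ⟨c, hc, hc'⟩
    · have hc0 : c = [] := by
        rw [hc, List.length_append] at h1
        exact List.length_eq_zero_iff.1 (by omega)
      subst hc0
      rw [List.append_nil] at hc
      rw [List.nil_append] at hc'
      exact ⟨[], by rw [hc, List.append_nil], by rw [List.nil_append, hc']⟩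
  obtain ⟨t₂, ht, hr2'⟩ := hpre
  -- the first coordinate
  have hs : r₁.flatMap a = (r₁.flatMap b).flatMap φ := by
    have e1 : r₁.flatMap a ++ r₂.flatMap a =
        (r₁.flatMap b).flatMap φ ++ (t₂.flatMap φ ++ z) := by
      rw [hr1, ht, List.flatMap_append, List.append_assoc]
    exact prefix_unique D e1 (by rw [hφ, ev_flatMap D])
  have hr1' : r₂.flatMap a = t₂.flatMap φ ++ z := by
    have e1 : r₁.flatMap a ++ r₂.flatMap a =
        r₁.flatMap a ++ (t₂.flatMap φ ++ z) := by
      rw [hr1, hs]
      conv_lhs => rw [ht]
      rw [List.flatMap_append, List.append_assoc]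
    exact List.append_cancel_left e1
  refine ⟨_, t₂, ht, ?_, ?_⟩
  · rcases h2 with h2 | ⟨hd, tl, h2, h3⟩
    · rw [h2] at hr2'
      have : t₂ = [] := by
        have := congrArg List.length hr2'
        simp only [List.flatMap_nil, List.length_nil, List.length_append] at this
        exact List.length_eq_zero_iff.1 (by omega)
      rw [this]
      simp
    · have h4 := D.b_le hd
      have h5 := congrArg List.length ht
      rw [List.length_append] at h5
      omega
  · rw [← hφ t₂, ← ev_append, ← hr1', ev_flatMap D, hr2', ev_append, hφ]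

/-- The main combinatorial statement: a congruence that contains all short relations contains all
relations. -/
theorem main (D : Data f g a b M) (E : List Y → List Y → Prop) (hE : Equivalence E)
    (happ : ∀ x y p q, E p q → E (x ++ p ++ y) (x ++ q ++ y))
    (hshort : ∀ p q : List Y, p.length ≤ M * M + 2 * M + 1 → q.length ≤ M * M + 2 * M + 1 →
      p.flatMap a = q.flatMap a → p.flatMap b = q.flatMap b → E p q) :
    ∀ (q p : List Y), p.flatMap a = q.flatMap a → p.flatMap b = q.flatMap b → E p q := by
  intro q
  induction q using List.reverseRecOn with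
  | nil =>
    intro p hp _
    have h1 := length_le_flatMap D.a_ne p
    rw [hp] at h1
    have : p = [] := List.length_eq_zero_iff.1 (by simpa using h1)
    rw [this]
    exact hE.refl _
  | append_singleton q η ih =>
    intro p hpa hpb
    rw [List.flatMap_append, List.flatMap_singleton] at hpa hpb
    obtain ⟨p₁, p₂, rfl, h1, h2⟩ := exists_split b p (q.flatMap b).length
    have hpa' := hpa
    have hpb' := hpb
    rw [List.flatMap_append] at hpa' hpb'
    -- `p₂` is not empty
    have hη := List.length_pos_of_ne_nil (D.b_ne η)
    obtain ⟨hd, tl, rfl, h3⟩ : ∃ h t, p₂ = h :: t ∧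
        (q.flatMap b).length < (p₁.flatMap b).length + (b h).length := by
      rcases h2 with h2 | h2
      · exfalso
        rw [h2, List.flatMap_nil, List.append_nil] at hpb'
        rw [hpb', List.length_append] at h1
        omega
      · exact h2
    -- the words `z'` and `z`
    obtain ⟨z', hz', hz2⟩ : ∃ z', q.flatMap b = p₁.flatMap b ++ z' ∧
        (hd :: tl).flatMap b = z' ++ b η := by
      rcases List.append_eq_append_iff.1 hpb' with ⟨c, hc, hc'⟩ | ⟨c, hc, hc'⟩
      · exact ⟨c, hc, hc'⟩
      · have hc0 : c = [] := by
          rw [hc, List.length_append] at h1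
          exact List.length_eq_zero_iff.1 (by omega)
        subst hc0
        rw [List.append_nil] at hc
        rw [List.nil_append] at hc'
        exact ⟨[], by rw [hc, List.append_nil], by rw [List.nil_append, hc']⟩
    obtain ⟨z, hz, hz1⟩ : ∃ z, q.flatMap a = p₁.flatMap a ++ z ∧
        (hd :: tl).flatMap a = z ++ a η := by
      rcases List.append_eq_append_iff.1 hpa' with ⟨c, hc, hc'⟩ | ⟨c, hc, hc'⟩
      · exact ⟨c, hc, hc'⟩
      · by_cases hc0 : c = []
        · subst hc0
          rw [List.append_nil] at hc
          rw [List.nil_append] at hc'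
          exact ⟨[], by rw [hc, List.append_nil], by rw [List.nil_append, hc']⟩
        · exfalso
          have e1 : ev f (q.flatMap a) = ev f (q.flatMap a) * (ev f c * ev g z') := by
            conv_lhs => rw [ev_flatMap D, hz', ev_append, ← ev_flatMap D, hc, ev_append]
            rw [mul_assoc]
          exact no_fix' D _ c z' hc0 e1
    have hz'len : z'.length ≤ M := by
      have h4 := D.b_le hd
      have h5 := congrArg List.length hz'
      rw [List.length_append] at h5
      omega
    have htl : tl.length < M := by
      have h5 := congrArg List.length hz2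
      have h6 := congrArg List.length hz'
      have h7 := length_le_flatMap D.b_ne tl
      have h8 := D.b_le η
      rw [List.flatMap_cons, List.length_append, List.length_append] at h5
      rw [List.length_append] at h6
      omega
    -- the equation `q z = q z'`
    have hq : ev g (p₁.flatMap b) * ev f z = ev g (p₁.flatMap b) * ev g z' := by
      rw [← ev_append, ← hz', ← ev_flatMap D p₁, ← ev_flatMap D q, hz, ev_append]
    obtain ⟨t₁, t₂, ht, ht2, hloc⟩ := local_cancel D _ z z' hq
    -- cut `p₁`
    obtain ⟨p₁₁, p₁₂, hp₁, hlen, hbig⟩ : ∃ p₁₁ p₁₂, p₁ = p₁₁ ++ p₁₂ ∧ p₁₂.length ≤ M ∧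
        (p₁₁ = [] ∨ p₁₂.length = M) := by
      rcases Nat.le_total p₁.length M with h | h
      · exact ⟨[], p₁, rfl, h, Or.inl rfl⟩
      · refine ⟨p₁.take (p₁.length - M), p₁.drop (p₁.length - M),
          (List.take_append_drop _ _).symm, ?_, Or.inr ?_⟩
        · rw [List.length_drop]; omega
        · rw [List.length_drop]; omega
    have hbridge : ev g (p₁₂.flatMap b) * ev f z = ev g (p₁₂.flatMap b) * ev g z' := by
      rcases hbig with h | h
      · rw [h, List.nil_append] at hp₁
        rw [← hp₁]
        exact hq
      · have h7 := length_le_flatMap D.b_ne p₁₂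
        have e : p₁₁.flatMap b ++ p₁₂.flatMap b = t₁ ++ t₂ := by
          rw [← List.flatMap_append, ← hp₁, ht]
        obtain ⟨c, hc⟩ : ∃ c, p₁₂.flatMap b = c ++ t₂ := by
          rcases List.append_eq_append_iff.1 e with ⟨c, -, hc⟩ | ⟨c, hc, hc'⟩
          · exact ⟨c, hc⟩
          · have hc0 : c = [] := by
              have := congrArg List.length hc'
              rw [List.length_append] at this
              exact List.length_eq_zero_iff.1 (by omega)
            subst hc0
            exact ⟨[], by simp [hc']⟩
        rw [hc, ev_append, mul_assoc, hloc, mul_assoc]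
    obtain ⟨ζ, hζ1, hζ2⟩ := D.full (p₁₂.flatMap a ++ z) (p₁₂.flatMap b ++ z') (by
      rw [ev_append, ev_append, ev_flatMap D, hbridge])
    -- the induction hypothesis
    have hind : E (p₁₁ ++ ζ) q := by
      apply ih
      · rw [List.flatMap_append, hζ1, hz, hp₁, List.flatMap_append, List.append_assoc]
      · rw [List.flatMap_append, hζ2, hz', hp₁, List.flatMap_append, List.append_assoc]
    -- the short relation
    have hsh : E (p₁₂ ++ (hd :: tl)) (ζ ++ [η]) := by
      apply hshort
      · rw [List.length_append, List.length_cons]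
        have : 0 ≤ M * M := Nat.zero_le _
        omega
      · have h7 := length_le_flatMap D.b_ne ζ
        rw [hζ2, List.length_append] at h7
        have h8 := flatMap_length_le D.b_le p₁₂
        have h9 : M * p₁₂.length ≤ M * M := Nat.mul_le_mul_left _ hlen
        rw [List.length_append, List.length_singleton]
        omega
      · rw [List.flatMap_append, List.flatMap_append, hζ1, hz1, List.flatMap_singleton,
          List.append_assoc]
      · rw [List.flatMap_append, List.flatMap_append, hζ2, hz2, List.flatMap_singleton,
          List.append_assoc]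
    have e1 := happ p₁₁ [] _ _ hsh
    have e2 := happ [] [η] _ _ hind
    rw [List.append_nil, List.append_nil] at e1
    rw [List.nil_append, List.nil_append] at e2
    have e3 : p₁₁ ++ (ζ ++ [η]) = p₁₁ ++ ζ ++ [η] := (List.append_assoc _ _ _).symm
    rw [e3] at e1
    have e4 := hE.trans e1 e2
    rw [hp₁, List.append_assoc]
    exact e4

end Core

/-! ### Fiber products -/

/-- The fiber product `{(u, v) : f u = g v}` of `A⁺` and `B⁺`. -/
def fiberProduct {A B Q : Type} [Semigroup Q] (f : FreeSemigroup A →ₙ* Q)
    (g : FreeSemigroup B →ₙ* Q) : Subsemigroup (FreeSemigroup A × FreeSemigroup B) where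
  carrier := {p | f p.1 = g p.2}
  mul_mem' := by
    intro x y hx hy
    simp only [Set.mem_ofPred_eq, Prod.fst_mul, Prod.snd_mul, map_mul] at *
    rw [hx, hy]

/-- `S` is finitely generated. -/
def FinGen (S : Type) [Semigroup S] : Prop :=
  ∃ X : Set S, X.Finite ∧ Subsemigroup.closure X = ⊤

/-- `S` is finitely presented: it is isomorphic to the quotient of the free semigroup on a finite
alphabet `Y` by the congruence generated by a finite relation. -/
def FinPres (S : Type) [Semigroup S] : Prop :=
  ∃ (Y : Type) (R : FreeSemigroup Y → FreeSemigroup Y → Prop), Finite Y ∧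
    {p : FreeSemigroup Y × FreeSemigroup Y | R p.1 p.2}.Finite ∧
    Nonempty ((conGen R).Quotient ≃* S)

/-- The list of letters of a word. -/
def toL {A : Type} (x : FreeSemigroup A) : List A := x.head :: x.tail

theorem toL_mul {A : Type} (x y : FreeSemigroup A) : toL (x * y) = toL x ++ toL y := rfl

theorem toL_of {A : Type} (x : A) : toL (FreeSemigroup.of x) = [x] := rfl

theorem toL_ne {A : Type} (x : FreeSemigroup A) : toL x ≠ [] := by simp [toL]

theorem toL_inj {A : Type} {x y : FreeSemigroup A} (h : toL x = toL y) : x = y := by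
  cases x; cases y
  simp only [toL, List.cons.injEq] at h
  simp [h.1, h.2]

theorem exists_toL {A : Type} {u : List A} (h : u ≠ []) : ∃ x : FreeSemigroup A, toL x = u := by
  cases u with
  | nil => exact absurd rfl h
  | cons a u => exact ⟨⟨a, u⟩, rfl⟩

/-- The value of a word under a homomorphism. -/
theorem ev_toL {A Q : Type} [Semigroup Q] (f : FreeSemigroup A →ₙ* Q) (x : FreeSemigroup A) :
    ev (fun a => ((f (FreeSemigroup.of a) : Q) : WithOne Q)) (toL x) = ((f x : Q) : WithOne Q) := by
  induction x using FreeSemigroup.recOnMul with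
  | ih1 a => simp [ev, toL_of]
  | ih2 a y h1 h2 => rw [toL_mul, ev_append, h1, h2, map_mul, WithOne.coe_mul]

theorem ev_ne_one {A Q : Type} [Semigroup Q] (f : FreeSemigroup A →ₙ* Q) {u : List A}
    (h : u ≠ []) : ev (fun a => ((f (FreeSemigroup.of a) : Q) : WithOne Q)) u ≠ 1 := by
  obtain ⟨x, rfl⟩ := exists_toL h
  rw [ev_toL]
  exact WithOne.coe_ne_one

section Wrap

variable {A B Q : Type} [Semigroup Q] (f : FreeSemigroup A →ₙ* Q) (g : FreeSemigroup B →ₙ* Q)

theorem exists_word (X : Set (fiberProduct f g)) (hX : Subsemigroup.closure X = ⊤)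
    (s : fiberProduct f g) :
    ∃ w : FreeSemigroup X, FreeSemigroup.lift (fun y : X => (y : fiberProduct f g)) w = s := by
  have hs : s ∈ Subsemigroup.closure X := by rw [hX]; exact Subsemigroup.mem_top s
  induction hs using Subsemigroup.closure_induction with
  | mem x hx => exact ⟨FreeSemigroup.of ⟨x, hx⟩, by simp⟩
  | mul x y _ _ h1 h2 =>
    obtain ⟨w1, h1⟩ := h1
    obtain ⟨w2, h2⟩ := h2
    exact ⟨w1 * w2, by rw [map_mul, h1, h2]⟩

theorem toL_lift (X : Set (fiberProduct f g)) (w : FreeSemigroup X) :
    toL (FreeSemigroup.lift (fun y : X => (y : fiberProduct f g)) w).1.1 =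
        (toL w).flatMap (fun y => toL y.1.1.1) ∧
      toL (FreeSemigroup.lift (fun y : X => (y : fiberProduct f g)) w).1.2 =
        (toL w).flatMap (fun y => toL y.1.1.2) := by
  induction w using FreeSemigroup.recOnMul with
  | ih1 a => simp [toL_of]
  | ih2 a y h1 h2 =>
    rw [map_mul, toL_mul, List.flatMap_append, List.flatMap_append, ← h1.1, ← h1.2, ← h2.1,
      ← h2.2]
    exact ⟨rfl, rfl⟩

theorem data (hf : Function.Surjective f) (hg : Function.Surjective g)
    (X : Set (fiberProduct f g)) (hX : Subsemigroup.closure X = ⊤) (M : ℕ)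
    (hM : ∀ y : X, (toL y.1.1.2).length ≤ M) :
    Data (fun a => ((f (FreeSemigroup.of a) : Q) : WithOne Q))
      (fun b => ((g (FreeSemigroup.of b) : Q) : WithOne Q))
      (fun y : X => toL y.1.1.1) (fun y : X => toL y.1.1.2) M where
  a_ne y := toL_ne _
  b_ne y := toL_ne _
  b_le := hM
  ab y := by
    rw [ev_toL, ev_toL]
    exact congrArg _ y.1.2
  full u v h := by
    by_cases hu : u = []
    · subst hu
      by_cases hv : v = []
      · subst hv
        exact ⟨[], rfl, rfl⟩
      · rw [ev_nil] at h
        exact absurd h.symm (ev_ne_one g hv)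
    · by_cases hv : v = []
      · subst hv
        rw [ev_nil] at h
        exact absurd h (ev_ne_one f hu)
      · obtain ⟨x, rfl⟩ := exists_toL hu
        obtain ⟨y, rfl⟩ := exists_toL hv
        rw [ev_toL, ev_toL] at h
        obtain ⟨w, hw⟩ := exists_word f g X hX ⟨(x, y), WithOne.coe_injective h⟩
        obtain ⟨h1, h2⟩ := toL_lift f g X w
        rw [hw] at h1 h2
        exact ⟨toL w, h1.symm, h2.symm⟩
  phi β := by
    obtain ⟨x, hx⟩ := hf (g (FreeSemigroup.of β))
    exact ⟨toL x, toL_ne x, by rw [ev_toL, hx]⟩
  psi α := by
    obtain ⟨x, hx⟩ := hg (f (FreeSemigroup.of α))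
    exact ⟨toL x, toL_ne x, by rw [ev_toL, hx]⟩

/-- Every finitely generated fiber product of two free semigroups is finitely presented. -/
theorem result (hf : Function.Surjective f) (hg : Function.Surjective g)
    (h : FinGen (fiberProduct f g)) : FinPres (fiberProduct f g) := by
  obtain ⟨X, hXf, hX⟩ := h
  have hYf : Finite X := hXf
  obtain ⟨M, hM⟩ : ∃ M, ∀ y : X, (toL y.1.1.2).length ≤ M := by
    have := Set.finite_range (fun y : X => (toL y.1.1.2).length)
    obtain ⟨M, hM⟩ := this.bddAbove
    exact ⟨M, fun y => hM ⟨y, rfl⟩⟩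
  have D := data f g hf hg X hX M hM
  let N : ℕ := M * M + 2 * M + 1
  let R : FreeSemigroup X → FreeSemigroup X → Prop := fun x y =>
    (toL x).length ≤ N ∧ (toL y).length ≤ N ∧
      (toL x).flatMap (fun y => toL y.1.1.1) = (toL y).flatMap (fun y => toL y.1.1.1) ∧
      (toL x).flatMap (fun y => toL y.1.1.2) = (toL y).flatMap (fun y => toL y.1.1.2)
  refine ⟨X, R, hYf, ?_, ?_⟩
  · -- finiteness of the set of relations
    have h1 : {x : FreeSemigroup X | (toL x).length ≤ N}.Finite := by
      have := (List.finite_length_le X N).preimage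
        (f := fun x : FreeSemigroup X => toL x) (fun x _ y _ h => toL_inj h)
      exact this
    apply (h1.prod h1).subset
    rintro ⟨x, y⟩ ⟨hx, hy, -, -⟩
    exact ⟨hx, hy⟩
  · let Φ : FreeSemigroup X →ₙ* fiberProduct f g :=
      FreeSemigroup.lift (fun y : X => (y : fiberProduct f g))
    -- equality in the fiber product in terms of words
    have hΦ : ∀ x y, Φ x = Φ y ↔
        ((toL x).flatMap (fun y => toL y.1.1.1) = (toL y).flatMap (fun y => toL y.1.1.1) ∧
        (toL x).flatMap (fun y => toL y.1.1.2) = (toL y).flatMap (fun y => toL y.1.1.2)) := by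
      intro x y
      have hx := toL_lift f g X x
      have hy := toL_lift f g X y
      constructor
      · intro h
        have h' : FreeSemigroup.lift (fun y : X => (y : fiberProduct f g)) x =
          FreeSemigroup.lift (fun y : X => (y : fiberProduct f g)) y := h
        rw [← hx.1, ← hx.2, ← hy.1, ← hy.2, h']
        exact ⟨rfl, rfl⟩
      · rintro ⟨h1, h2⟩
        rw [← hx.1, ← hy.1] at h1
        rw [← hx.2, ← hy.2] at h2
        exact Subtype.ext (Prod.ext (toL_inj h1) (toL_inj h2))
    have hle : ∀ x y, conGen R x y → Φ x = Φ y := by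
      have : conGen R ≤ Con.ker Φ := by
        rw [Con.conGen_le]
        intro x y hxy
        exact (hΦ x y).2 hxy.2.2
      intro x y h
      exact this h
    let c : X → WithOne (conGen R).Quotient := fun y =>
      (((FreeSemigroup.of y : FreeSemigroup X) : (conGen R).Quotient) : WithOne _)
    have hc : ∀ x : FreeSemigroup X, ev c (toL x) = ((x : (conGen R).Quotient) : WithOne _) := by
      intro x
      induction x using FreeSemigroup.recOnMul with
      | ih1 a => simp [ev, toL_of, c]
      | ih2 a y h1 h2 => rw [toL_mul, ev_append, h1, h2, Con.coe_mul, WithOne.coe_mul]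
    have hmain := main D (fun p q => ev c p = ev c q)
      ⟨fun _ => rfl, fun h => h.symm, fun h h' => h.trans h'⟩
      (fun x y p q h => by
        change ev c (x ++ p ++ y) = ev c (x ++ q ++ y)
        rw [ev_append, ev_append, ev_append, ev_append, h])
      (by
        intro p q hp hq h1 h2
        by_cases hp0 : p = []
        · subst hp0
          have : q = [] := by
            have h3 := length_le_flatMap D.a_ne q
            rw [← h1] at h3
            exact List.length_eq_zero_iff.1 (by simpa using h3)
          rw [this]
        · by_cases hq0 : q = []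
          · exfalso
            subst hq0
            have h3 := length_le_flatMap D.a_ne p
            rw [h1] at h3
            exact hp0 (List.length_eq_zero_iff.1 (by simpa using h3))
          · obtain ⟨x, rfl⟩ := exists_toL hp0
            obtain ⟨y, rfl⟩ := exists_toL hq0
            rw [hc, hc]
            congr 1
            exact (Con.eq _).2 (ConGen.Rel.of _ _ ⟨hp, hq, h1, h2⟩))
    refine ⟨MulEquiv.ofBijective
      (⟨fun x => Con.liftOn x Φ hle, ?_⟩ : (conGen R).Quotient →ₙ* fiberProduct f g) ⟨?_, ?_⟩⟩
    · intro x y
      induction x, y using Con.induction_on₂ with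
      | H x y =>
        rw [← Con.coe_mul]
        change Φ (x * y) = Φ x * Φ y
        exact map_mul Φ x y
    · intro x y hxy
      induction x using Con.induction_on with
      | H x =>
      induction y using Con.induction_on with
      | H y =>
      change Φ x = Φ y at hxy
      obtain ⟨h1, h2⟩ := (hΦ x y).1 hxy
      have := hmain (toL y) (toL x) h1 h2
      simp only [hc] at this
      exact WithOne.coe_injective this
    · intro s
      obtain ⟨w, hw⟩ := exists_word f g X hX s
      exact ⟨(w : (conGen R).Quotient), hw⟩

end Wrap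

end Pool.Agent.Results.MP_c47b4a_al.FinitelyPresented
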